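import Pool.Agent.Y748.SR.Stm2

/-!
Distribution of the gaps from the means of `max (gap - s) 0`.
-/

open Finset Filter Topology MeasureTheory

set_option autoImplicit false

namespace Pool.Agent.Y255.SR

open Pool.Agent.Y748.SR

/-- proportion of the terms `> s` -/
noncomputable def Ac (d : ℕ → ℝ) (N : ℕ) (s : ℝ) : ℝ :=
  (((Finset.Icc 1 N).filter (fun n => s < d n)).card : ℝ) / N

/-- mean of `max (d n - s) 0` -/
noncomputable def Gc (d : ℕ → ℝ) (N : ℕ) (s : ℝ) : ℝ :=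
  (1 / N : ℝ) * ∑ n ∈ Finset.Icc 1 N, max (d n - s) 0

lemma Ac_eq (d : ℕ → ℝ) (N : ℕ) (s : ℝ) :
    Ac d N s = (1 / N : ℝ) * ∑ n ∈ Finset.Icc 1 N, (if s < d n then (1 : ℝ) else 0) := by
  unfold Ac
  rw [Finset.sum_boole]
  ring

lemma G_le (d : ℕ → ℝ) (N : ℕ) (s h : ℝ) (hh : 0 ≤ h) :
    Gc d N s - Gc d N (s + h) ≤ h * Ac d N s := by
  rw [Ac_eq]
  unfold Gc
  rw [← mul_sub, ← Finset.sum_sub_distrib, mul_left_comm h]
  apply mul_le_mul_of_nonneg_left _ (by positivity)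
  rw [Finset.mul_sum]
  apply Finset.sum_le_sum
  intro n _
  split_ifs with hs
  · rcases le_total (d n - s) 0 with h1 | h1
    · linarith
    · rw [max_eq_left h1]
      have := le_max_left (d n - (s + h)) 0
      linarith
  · have h1 : d n - s ≤ 0 := by linarith [not_lt.1 hs]
    have h2 : d n - (s + h) ≤ 0 := by linarith
    rw [max_eq_right h1, max_eq_right h2]
    simp

lemma G_ge (d : ℕ → ℝ) (N : ℕ) (s h : ℝ) (hh : 0 ≤ h) :
    h * Ac d N (s + h) ≤ Gc d N s - Gc d N (s + h) := by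
  rw [Ac_eq]
  unfold Gc
  rw [← mul_sub, ← Finset.sum_sub_distrib, mul_left_comm h]
  apply mul_le_mul_of_nonneg_left _ (by positivity)
  rw [Finset.mul_sum]
  apply Finset.sum_le_sum
  intro n _
  split_ifs with hs
  · rw [max_eq_left (by linarith : (0 : ℝ) ≤ d n - s),
      max_eq_left (by linarith : (0 : ℝ) ≤ d n - (s + h))]
    linarith
  · have h1 := le_max_right (d n - s) 0
    have h2 : d n - (s + h) ≤ 0 := by linarith [not_lt.1 hs]
    rw [max_eq_right h2]
    simp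

lemma Ac_le_one (d : ℕ → ℝ) (N : ℕ) (s : ℝ) : Ac d N s ≤ 1 := by
  unfold Ac
  apply div_le_one_of_le₀ _ (by positivity)
  have h1 := Finset.card_filter_le (Finset.Icc 1 N) (fun n => s < d n)
  rw [Nat.card_Icc] at h1
  exact_mod_cast h1

section lim

variable {d : ℕ → ℝ} {I : Type} {l : Filter I} {N : I → ℕ} {F : ℝ → ℝ}

lemma lower (hF : Differentiable ℝ F)
    (hG : ∀ s : ℝ, 0 ≤ s → Tendsto (fun j => Gc d (N j) s) l (𝓝 (F s)))
    (s : ℝ) (hs : 0 ≤ s) (a : ℝ) (ha : a < -deriv F s) :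
    ∀ᶠ j in l, a < Ac d (N j) s := by
  have h1 := (hF s).hasDerivAt.tendsto_slope_zero_right
  have h2 : ∀ᶠ t in 𝓝[>] (0 : ℝ), t⁻¹ • (F (s + t) - F s) < -a :=
    h1.eventually (gt_mem_nhds (by linarith))
  obtain ⟨t, ht, ht0⟩ := (h2.and self_mem_nhdsWithin).exists
  have ht0 : 0 < t := ht0
  have h3 : a * t < F s - F (s + t) := by
    rw [smul_eq_mul, inv_mul_eq_div, div_lt_iff₀ ht0] at ht
    linarith
  have h4 := ((hG s hs).sub (hG (s + t) (by linarith))).eventually (lt_mem_nhds h3)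
  filter_upwards [h4] with j hj
  have h5 := G_le d (N j) s t ht0.le
  have h6 : t * a < t * Ac d (N j) s := by linarith
  exact lt_of_mul_lt_mul_left h6 ht0.le

lemma upper (hF : Differentiable ℝ F)
    (hG : ∀ s : ℝ, 0 ≤ s → Tendsto (fun j => Gc d (N j) s) l (𝓝 (F s)))
    (s : ℝ) (hs : 0 < s) (a : ℝ) (ha : -deriv F s < a) :
    ∀ᶠ j in l, Ac d (N j) s < a := by
  have h1 := (hF s).hasDerivAt.tendsto_slope_zero_left
  have h2 : ∀ᶠ t in 𝓝[<] (0 : ℝ), -a < t⁻¹ • (F (s + t) - F s) :=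
    h1.eventually (lt_mem_nhds (by linarith))
  have h2' : ∀ᶠ t in 𝓝[<] (0 : ℝ), -s < t :=
    mem_nhdsWithin_of_mem_nhds (lt_mem_nhds (by linarith))
  obtain ⟨t, ⟨ht, hts⟩, ht0⟩ := ((h2.and h2').and self_mem_nhdsWithin).exists
  have ht0 : t < 0 := ht0
  have h3 : F (s + t) - F s < (-t) * a := by
    rw [smul_eq_mul, inv_mul_eq_div, lt_div_iff_of_neg ht0] at ht
    linarith
  have h4 := ((hG (s + t) (by linarith)).sub (hG s hs.le)).eventually (gt_mem_nhds h3)
  filter_upwards [h4] with j hj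
  have h5 := G_ge d (N j) (s + t) (-t) (by linarith)
  rw [show s + t + -t = s by ring] at h5
  have h6 : (-t) * Ac d (N j) s < (-t) * a := by linarith
  exact lt_of_mul_lt_mul_left h6 (by linarith)

lemma Ac_lim (hF : Differentiable ℝ F) (h0 : deriv F 0 = -1)
    (hG : ∀ s : ℝ, 0 ≤ s → Tendsto (fun j => Gc d (N j) s) l (𝓝 (F s)))
    (s : ℝ) (hs : 0 ≤ s) :
    Tendsto (fun j => Ac d (N j) s) l (𝓝 (-deriv F s)) := by
  rw [tendsto_order]
  refine ⟨fun a ha => lower hF hG s hs a ha, fun a ha => ?_⟩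
  rcases hs.eq_or_lt with h | h
  · subst h
    rw [h0, neg_neg] at ha
    exact Eventually.of_forall fun j => lt_of_le_of_lt (Ac_le_one d (N j) 0) ha
  · exact upper hF hG s h a ha

end lim

lemma count_eq (d : ℕ → ℝ) (N : ℕ) (a b : ℝ) (hab : a < b) :
    (({n : ℕ | 1 ≤ n ∧ n ≤ N ∧ a < d n ∧ d n ≤ b}.ncard : ℝ)) / N = Ac d N a - Ac d N b := by
  have h1 : {n : ℕ | 1 ≤ n ∧ n ≤ N ∧ a < d n ∧ d n ≤ b} =
      (((Finset.Icc 1 N).filter (fun n => a < d n)) \
        ((Finset.Icc 1 N).filter (fun n => b < d n)) : Finset ℕ) := by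
    ext n
    simp only [Set.mem_ofPred_eq, Finset.coe_sdiff, Finset.coe_filter, Finset.mem_Icc,
      Set.mem_sdiff, not_and, not_lt]
    constructor
    · rintro ⟨h1, h2, h3, h4⟩
      exact ⟨⟨⟨h1, h2⟩, h3⟩, fun _ => h4⟩
    · rintro ⟨⟨⟨h1, h2⟩, h3⟩, h4⟩
      exact ⟨h1, h2, h3, h4 ⟨h1, h2⟩⟩
  have hsub : (Finset.Icc 1 N).filter (fun n => b < d n) ⊆
      (Finset.Icc 1 N).filter (fun n => a < d n) := by
    intro n hn
    rw [Finset.mem_filter] at hn ⊢
    exact ⟨hn.1, hab.trans hn.2⟩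
  rw [h1, Set.ncard_coe_finset, Finset.card_sdiff_of_subset hsub,
    Nat.cast_sub (Finset.card_le_card hsub)]
  unfold Ac
  ring

lemma int_eq {E F : ℝ → ℝ} (hF : ContDiff ℝ 2 F) (hE : ∀ s, 0 ≤ s → E s = F s)
    (a b : ℝ) (ha : 0 ≤ a) (hab : a < b) :
    ∫ s in a..b, deriv (deriv E) s = deriv F b - deriv F a := by
  have h1 : ∀ s ∈ Set.Ioc a b, deriv (deriv E) s = deriv (deriv F) s := by
    intro s hs
    have hs0 : 0 < s := lt_of_le_of_lt ha hs.1
    have e1 : ∀ᶠ x in 𝓝 s, deriv E x = deriv F x := by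
      filter_upwards [lt_mem_nhds hs0] with x hx
      apply Filter.EventuallyEq.deriv_eq
      filter_upwards [lt_mem_nhds hx] with y hy
      exact hE y hy.le
    exact Filter.EventuallyEq.deriv_eq e1
  have h2 : ∫ s in a..b, deriv (deriv E) s = ∫ s in a..b, deriv (deriv F) s := by
    rw [intervalIntegral.integral_of_le hab.le, intervalIntegral.integral_of_le hab.le]
    exact setIntegral_congr_fun measurableSet_Ioc h1
  rw [h2]
  have hF1 : ContDiff ℝ 1 (deriv F) := by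
    have h3 : ContDiff ℝ (1 + 1) F := by
      have : ((1 : WithTop ℕ∞) + 1) = 2 := by norm_num
      rw [this]; exact hF
    exact (contDiff_succ_iff_deriv.1 h3).2.2
  apply intervalIntegral.integral_deriv_eq_sub
  · intro x _
    exact (hF1.differentiable (by norm_num)) x
  · exact (hF1.continuous_deriv (by norm_num)).intervalIntegrable _ _

/-- **The distribution of the gaps from the means of `max (gap - s) 0`.** -/
theorem t_CONV : S_CONV := by
  intro d _ I l N _ E F hF hEF h0 hG a b ha hab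
  have hFd : Differentiable ℝ F := hF.differentiable (by norm_num)
  have hG' : ∀ s : ℝ, 0 ≤ s → Tendsto (fun j => Gc d (N j) s) l (𝓝 (F s)) := by
    intro s hs
    rw [← hEF s hs]
    exact hG s hs
  rw [int_eq hF hEF a b ha hab]
  have h1 := (Ac_lim hFd h0 hG' a ha).sub (Ac_lim hFd h0 hG' b (ha.trans hab.le))
  rw [show -deriv F a - -deriv F b = deriv F b - deriv F a by ring] at h1
  refine h1.congr fun j => ?_
  rw [count_eq d (N j) a b hab]

end Pool.Agent.Y255.SR
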